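import Pool.Agent.LPW.StmtsS

/-! LPW, row STP: the covering by algebraic curves. -/

set_option autoImplicit false

open Polynomial

namespace Pool.Agent.LPW.H25

/-- evaluation at `(y₁, y₂)`, outer variable `y₂` -/
noncomputable def ev {A : Type} [CommRing A] (y₁ y₂ : A) : A[X][X] →+* A :=
  (evalRingHom y₂).comp (mapRingHom (evalRingHom y₁))

theorem ev_apply {A : Type} [CommRing A] (y₁ y₂ : A) (f : A[X][X]) :
    ev y₁ y₂ f = (f.map (evalRingHom y₁)).eval y₂ := rfl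

theorem ev_CC {A : Type} [CommRing A] (y₁ y₂ a : A) : ev y₁ y₂ (C (C a)) = a := by
  simp [ev]

theorem ev_CX {A : Type} [CommRing A] (y₁ y₂ : A) : ev y₁ y₂ (C X) = y₁ := by
  simp [ev]

theorem ev_X {A : Type} [CommRing A] (y₁ y₂ : A) : ev y₁ y₂ X = y₂ := by
  simp [ev]

/-- the exponent -/
noncomputable def ex (f : Fin 2 → ℕ) : Fin 2 →₀ ℕ := Finsupp.equivFunOnFinite.symm f

/-- the polynomial with the given exponents and coefficients -/
noncomputable def Phi {L : ℕ} (e : Fin L → Fin 2 → ℕ) (c : Fin L → ℤ) :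
    MvPolynomial (Fin 2) ℤ := ∑ a, MvPolynomial.monomial (ex (e a)) (c a)

theorem Phi_ne_zero {L : ℕ} (e : Fin L → Fin 2 → ℕ) (he : Function.Injective e)
    (c : Fin L → ℤ) (hc : c ≠ 0) : Phi e c ≠ 0 := by
  classical
  intro h
  apply hc
  funext a
  have h1 : MvPolynomial.coeff (ex (e a)) (Phi e c) = c a := by
    unfold Phi
    rw [MvPolynomial.coeff_sum, Finset.sum_eq_single a]
    · rw [MvPolynomial.coeff_monomial, if_pos rfl]
    · intro b _ hb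
      rw [MvPolynomial.coeff_monomial, if_neg]
      intro h2
      exact hb (he (Finsupp.equivFunOnFinite.symm.injective h2))
    · intro h2
      exact absurd (Finset.mem_univ a) h2
  rw [← h1, h, MvPolynomial.coeff_zero]
  rfl

theorem Phi_totalDegree {L : ℕ} (e : Fin L → Fin 2 → ℕ) (d : ℕ) (he : ∀ a, e a 0 + e a 1 ≤ d)
    (c : Fin L → ℤ) : (Phi e c).totalDegree ≤ d := by
  unfold Phi
  refine MvPolynomial.totalDegree_finsetSum_le fun a _ => ?_
  refine (MvPolynomial.totalDegree_monomial_le _ _).trans ?_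
  refine le_trans (le_of_eq ?_) (he a)
  rw [Finsupp.sum_fintype _ _ (fun _ => rfl), Fin.sum_univ_two]
  rfl

theorem Phi_eval {L : ℕ} (e : Fin L → Fin 2 → ℕ) (c : Fin L → ℤ) (P : Fin 2 → ℤ) :
    MvPolynomial.eval P (Phi e c) = ∑ a, c a * ((P 0) ^ (e a 0) * (P 1) ^ (e a 1)) := by
  unfold Phi
  rw [map_sum]
  refine Finset.sum_congr rfl fun a _ => ?_
  rw [MvPolynomial.eval_monomial, Finsupp.prod_fintype _ _ (fun _ => pow_zero _),
    Fin.prod_univ_two]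
  rfl

theorem stp : StpStmt := by
  classical
  intro hDIV hABS hLED hENU hNUM p hp K ε hε
  set m : ℕ := (K + 1) ^ 2 + 1 with hm
  have hm0 : 0 < m := Nat.succ_pos _
  obtain ⟨d, B, hdB⟩ := hNUM p m hp.out hm0 ε hε
  obtain ⟨e, he1, he2, he3⟩ := hENU d
  refine ⟨d, B, ?_⟩
  intro H hH hdom c N hN Z hZ
  obtain ⟨k, hk1, hk2⟩ := hdB N hN
  obtain ⟨m', hm', hLM⟩ := hLED p K H hH hdom
  set M : ℕ := k * ee m (Ld d) with hM
  obtain ⟨P₀, P₁, hP0, hPd, hPz⟩ := hLM M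
  -- division
  set g : Fin (Ld d) → ℤ_[p][X][X] := fun a =>
    (C (C (c 0 : ℤ_[p])) + C (C ((p : ℤ_[p]) ^ 3)) * (C X + X ^ (K + 1))) ^ (e a 0) *
      (C (C (c 1 : ℤ_[p])) + C (C ((p : ℤ_[p]) ^ 3)) * X) ^ (e a 1) with hg
  choose q r e' hqr hrd using fun a => hDIV (ℤ_[p][X]) (C (p : ℤ_[p])) P₀ P₁ hP0 M (g a)
  have hrm : ∀ a, (r a).natDegree < m := by
    intro a
    have h1 := hrd a
    rw [Polynomial.degree_eq_natDegree hP0.ne_zero, hPd] at h1
    have h2 : (r a).natDegree ≤ m' := Polynomial.natDegree_le_of_degree_le h1.le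
    omega
  -- the coordinates
  have hx : ∀ P : Fin 2 → ℤ, ∃ x : Fin 2 → ℤ_[p], P ∈ Z →
      (∀ i, (P i : ℤ_[p]) = c i + (p : ℤ_[p]) ^ 3 * x i) ∧ Zero H (x 0) (x 1) := by
    intro P
    by_cases hP : P ∈ Z
    · obtain ⟨-, x, h1, h2⟩ := hZ P hP
      exact ⟨x, fun _ => ⟨h1, h2⟩⟩
    · exact ⟨0, fun h => absurd h hP⟩
  choose x hx using hx
  have key : ∀ P ∈ Z, ∀ a, (p : ℤ_[p]) ^ M ∣
      ev (x P 0 - x P 1 ^ (K + 1)) (x P 1) (r a) -
        (((P 0) ^ (e a 0) * (P 1) ^ (e a 1) : ℤ) : ℤ_[p]) := by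
    intro P hP a
    obtain ⟨h1, h2⟩ := hx P hP
    have h3 := hPz _ _ h2
    rw [← ev_apply] at h3
    have h4 : ev (x P 0 - x P 1 ^ (K + 1)) (x P 1) (g a) =
        (((P 0) ^ (e a 0) * (P 1) ^ (e a 1) : ℤ) : ℤ_[p]) := by
      rw [hg]
      simp only [map_mul, map_pow, map_add, ev_CX, ev_X]
      have e0 : ev (x P 0 - x P 1 ^ (K + 1)) (x P 1) (C (C (c 0 : ℤ_[p]))) = (c 0 : ℤ_[p]) :=
        ev_CC _ _ _
      have e1 : ev (x P 0 - x P 1 ^ (K + 1)) (x P 1) (C (C (c 1 : ℤ_[p]))) = (c 1 : ℤ_[p]) :=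
        ev_CC _ _ _
      have e2 : ev (x P 0 - x P 1 ^ (K + 1)) (x P 1) (C (C (p : ℤ_[p]))) = (p : ℤ_[p]) :=
        ev_CC _ _ _
      rw [e0, e1, e2]
      push_cast
      rw [h1 0, h1 1]
      ring
    have h5 := congrArg (ev (x P 0 - x P 1 ^ (K + 1)) (x P 1)) (hqr a)
    rw [h4, map_add, map_add, map_mul, map_mul] at h5
    have h6 : ev (x P 0 - x P 1 ^ (K + 1)) (x P 1) (C (C (p : ℤ_[p]) ^ M)) =
        (p : ℤ_[p]) ^ M := by
      rw [← C_pow]
      exact ev_CC _ _ _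
    rw [h6] at h5
    obtain ⟨t, ht⟩ := h3
    refine ⟨-(ev (x P 0 - x P 1 ^ (K + 1)) (x P 1) (q a) * t +
      ev (x P 0 - x P 1 ^ (K + 1)) (x P 1) (e' a)), ?_⟩
    rw [h5, ht]
    ring
  -- the strips
  set yy : (Fin 2 → ℤ) → ℤ_[p] := fun P => x P 0 - x P 1 ^ (K + 1) with hyy
  have hstrip : ∀ η : ℕ, ∃ cc : Fin (Ld d) → ℤ, cc ≠ 0 ∧
      ∀ P ∈ Z.filter (fun P => (yy P).appr k = η),
        ∑ a, cc a * ((P 0) ^ (e a 0) * (P 1) ^ (e a 1)) = 0 := by
    intro η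
    refine hABS p m (Ld d) k N hm0 e (by rw [he3]; exact hk1) _ ?_ ?_
    · intro P hP
      rw [Finset.mem_filter] at hP
      exact (hZ P hP.1).1
    · refine ⟨r, (η : ℤ_[p]), hrm, ?_⟩
      intro P hP
      rw [Finset.mem_filter] at hP
      have h1 := PadicInt.appr_spec k (yy P)
      rw [hP.2, Ideal.mem_span_singleton] at h1
      obtain ⟨ξ, hξ⟩ := h1
      refine ⟨ξ, x P 1, fun a => ?_⟩
      have h2 : (η : ℤ_[p]) + (p : ℤ_[p]) ^ k * ξ = yy P := by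
        rw [← hξ]
        ring
      rw [h2]
      exact key P hP.1 a
  choose cc hcc0 hcc using hstrip
  refine ⟨(Finset.range (p ^ k)).image fun η => Phi e (cc η), ?_, ?_, ?_⟩
  · refine le_trans ?_ hk2
    have h1 : ((Finset.range (p ^ k)).image fun η => Phi e (cc η)).card ≤ p ^ k := by
      refine Finset.card_image_le.trans ?_
      rw [Finset.card_range]
    exact_mod_cast h1
  · intro Φ hΦ
    rw [Finset.mem_image] at hΦ
    obtain ⟨η, -, rfl⟩ := hΦ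
    exact ⟨Phi_ne_zero e he1 _ (hcc0 η), Phi_totalDegree e d he2 _⟩
  · intro P hP
    refine ⟨Phi e (cc ((yy P).appr k)), Finset.mem_image.mpr
      ⟨(yy P).appr k, Finset.mem_range.mpr (PadicInt.appr_lt _ _), rfl⟩, ?_⟩
    rw [Phi_eval]
    exact hcc _ P (Finset.mem_filter.mpr ⟨hP, rfl⟩)

end Pool.Agent.LPW.H25
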