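import Pool.Agent.LPW.StmtsE

/-! LPW, row TRL: translation. -/

set_option autoImplicit false

open Polynomial NumberField
open Pool.Agent.LUB (FullRank sp spr)

namespace Pool.Agent.LPW.H25

/-- the translation of the variables -/
noncomputable def tau (lo : Fin 2 → ℤ) : MvPolynomial (Fin 2) ℤ →+* MvPolynomial (Fin 2) ℤ :=
  MvPolynomial.eval₂Hom MvPolynomial.C fun i => MvPolynomial.X i + MvPolynomial.C (lo i)

theorem tau_totalDegree (lo : Fin 2 → ℤ) (g : MvPolynomial (Fin 2) ℤ) :
    (tau lo g).totalDegree ≤ g.totalDegree := by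
  unfold tau
  rw [MvPolynomial.coe_eval₂Hom, MvPolynomial.eval₂_eq']
  refine MvPolynomial.totalDegree_finsetSum_le fun d hd => ?_
  refine (MvPolynomial.totalDegree_mul _ _).trans ?_
  rw [MvPolynomial.totalDegree_C, zero_add]
  refine (MvPolynomial.totalDegree_finsetProd _ _).trans ?_
  have h1 : ∀ i : Fin 2, (MvPolynomial.X i + MvPolynomial.C (lo i) :
      MvPolynomial (Fin 2) ℤ).totalDegree ≤ 1 := by
    intro i
    refine (MvPolynomial.totalDegree_add _ _).trans ?_
    rw [MvPolynomial.totalDegree_X, MvPolynomial.totalDegree_C]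
    simp
  calc ∑ i, ((MvPolynomial.X i + MvPolynomial.C (lo i) : MvPolynomial (Fin 2) ℤ) ^
        d i).totalDegree ≤ ∑ i, d i := by
        refine Finset.sum_le_sum fun i _ => ?_
        refine (MvPolynomial.totalDegree_pow _ _).trans ?_
        calc d i * _ ≤ d i * 1 := Nat.mul_le_mul_left _ (h1 i)
          _ = d i := mul_one _
    _ = d.sum fun _ e => e := by
        rw [Finsupp.sum_fintype _ _ (fun _ => rfl)]
    _ ≤ g.totalDegree := MvPolynomial.le_totalDegree hd

theorem spr2_tau {S : Type} [CommRing S] (f : (MvPolynomial (Fin 2) ℤ)[X]) (lo : Fin 2 → ℤ)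
    (P : Fin 2 → S) : spr2 (f.map (tau lo)) P = spr2 f fun i => P i + (lo i : S) := by
  unfold spr2
  rw [Polynomial.map_map]
  congr 1
  apply MvPolynomial.ringHom_ext
  · intro r
    simp [tau]
  · intro i
    show MvPolynomial.eval₂Hom (Int.castRingHom S) P (tau lo (MvPolynomial.X i)) =
      MvPolynomial.eval₂Hom (Int.castRingHom S) (fun i => P i + (lo i : S)) (MvPolynomial.X i)
    unfold tau
    rw [MvPolynomial.eval₂Hom_X', MvPolynomial.eval₂Hom_X', map_add, MvPolynomial.eval₂Hom_X',
      MvPolynomial.eval₂Hom_C]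
    rfl

theorem res_tau (f : (MvPolynomial (Fin 2) ℤ)[X]) (lo P v : Fin 2 → ℤ) :
    res (f.map (tau lo)) P v = res f (fun i => P i + lo i) v := by
  unfold res
  rw [spr2_tau]
  congr 1
  funext i
  rw [C_add, ← Polynomial.C_eq_intCast]
  simp only [Int.cast_id]
  ring

theorem trl : TrlStmt := by
  intro hUPC p hp n r D ε hε
  obtain ⟨B, hB⟩ := hUPC p n r D ε hε
  refine ⟨B, ?_⟩
  intro f u hf A hA lo N hN
  have hfam : Fam2 n D (f.map (tau lo)) (fun i => (u i).map (tau lo)) := by
    obtain ⟨h1, h2, h3, h4⟩ := hf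
    refine ⟨h1.map _, ?_, ?_, ?_⟩
    · rw [h1.natDegree_map, h2]
    · intro j
      rw [Polynomial.coeff_map]
      exact (tau_totalDegree lo _).trans (h3 j)
    · intro i
      refine ⟨Polynomial.natDegree_map_le.trans (h4 i).1, fun j => ?_⟩
      rw [Polynomial.coeff_map]
      exact (tau_totalDegree lo _).trans ((h4 i).2 j)
  have hline : LineFull (f.map (tau lo)) (fun i => (u i).map (tau lo))
      {P | (fun i => P i + lo i) ∈ A} := by
    intro P hP v hv
    have h1 := hA _ hP v hv
    rw [res_tau]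
    simp only [res_tau]
    exact h1
  have h1 := hB _ _ hfam _ hline N hN
  refine le_trans ?_ h1
  have hfin : {P : Fin 2 → ℤ | P ∈ {P : Fin 2 → ℤ | (fun i => P i + lo i) ∈ A} ∧
      (∀ i, |P i| ≤ N) ∧ ExcPt p n (spr2 (f.map (tau lo)) P)
        (fun i => spr2 ((u i).map (tau lo)) P)}.Finite := by
    refine (Set.Finite.pi' (fun _ : Fin 2 => Set.finite_Icc (-(N : ℤ)) N)).subset ?_
    intro P hP i
    exact abs_le.mp (hP.2.1 i)
  have h2 : ({P : Fin 2 → ℤ | P ∈ A ∧ (∀ i, lo i ≤ P i ∧ P i < lo i + N) ∧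
      ExcPt p n (spr2 f P) (fun i => spr2 (u i) P)}).ncard ≤
      {P : Fin 2 → ℤ | P ∈ {P : Fin 2 → ℤ | (fun i => P i + lo i) ∈ A} ∧
      (∀ i, |P i| ≤ N) ∧ ExcPt p n (spr2 (f.map (tau lo)) P)
        (fun i => spr2 ((u i).map (tau lo)) P)}.ncard := by
    refine Set.ncard_le_ncard_of_injOn (fun P i => P i - lo i) ?_ ?_ hfin
    · rintro P ⟨hPA, hPb, hPe⟩
      have h3 : (fun i => (P i - lo i) + lo i) = P := by
        funext i
        ring
      refine ⟨?_, ?_, ?_⟩
      · show (fun i => (P i - lo i) + lo i) ∈ A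
        rw [h3]
        exact hPA
      · intro i
        obtain ⟨h4, h5⟩ := hPb i
        show |P i - lo i| ≤ N
        rw [abs_le]
        constructor <;> linarith
      · simp only [spr2_tau, Int.cast_id]
        rw [h3]
        exact hPe
    · intro P _ Q _ hPQ
      funext i
      have h3 := congrFun hPQ i
      simp only at h3
      linarith
  exact_mod_cast h2

end Pool.Agent.LPW.H25
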